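import Mathlib
import Pool.Agent.Lib.MP_4cc90a_co.JoinPreserving

/-! Transport of chains along the embeddings of a pre-upho coloring, and word length. -/

set_option autoImplicit false

namespace Pool.Agent.Lib.MP_4cc90a_co.H

open Pool.Agent.Lib.MP_4cc90a_co.JoinPreserving

variable {L : Type} [Lattice L] [BoundedOrder L] {c : L → L → {s : L // IsAtom s}} {rk : L → ℕ}

theorem len_con' (h1 : ∀ x y : L, x ⋖ y → rk y = rk x + 1) {u v}
    (h : ConGen.Rel (Rel c) u v) : u.toList.length = v.toList.length := by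
  induction h with
  | of u v h =>
    obtain ⟨s, t, p, q, hp, hq, rfl, rfl⟩ := h
    have a1 := len_chain h1 hp
    have a2 := len_chain h1 hq
    have a3 := h1 _ _ s.2.bot_covBy
    have a4 := h1 _ _ t.2.bot_covBy
    simp only [FreeMonoid.toList_ofList, List.length_cons]
    omega
  | refl => rfl
  | symm _ ih => exact ih.symm
  | trans _ _ ih ih' => exact ih.trans ih'
  | mul _ _ ih ih' => simp only [FreeMonoid.toList_mul, List.length_append, ih, ih']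

theorem len_le (h1 : ∀ x y : L, x ⋖ y → rk y = rk x + 1) {p q : List {s : L // IsAtom s}}
    {w : PresentedMonoid (Rel c)} (h : W c p = W c q * w) : q.length ≤ p.length := by
  obtain ⟨o, rfl⟩ := W_surj w
  rw [← W_append] at h
  have := len_con' h1 (PresentedMonoid.mk_eq_mk_iff.1 h)
  simp only [FreeMonoid.toList_ofList, List.length_append] at this
  omega

theorem eq_of_le_of_rk [Finite L] (c : L → L → {s : L // IsAtom s})
    (h1 : ∀ x y : L, x ⋖ y → rk y = rk x + 1) {x y : L} (h : x ≤ y) (hr : rk y ≤ rk x) : x = y := by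
  obtain ⟨q, hq⟩ := exists_chain c h
  have k1 := len_chain h1 hq
  obtain rfl := List.length_eq_zero_iff.1 (show q.length = 0 by omega)
  cases hq
  rfl

section Emb
variable [Finite L] {x z : L} (φ : Set.Icc x z ↪o L)

theorem chain_map
    (f2 : ∀ u v : Set.Icc x z, u.1 ⋖ v.1 → φ u ⋖ φ v ∧ c (φ u) (φ v) = c u.1 v.1)
    {u v : L} {p} (h : ChainWord c u v p) :
    ∀ hu hv, ChainWord c (φ ⟨u, hu⟩) (φ ⟨v, hv⟩) p := by
  induction h with
  | nil => exact fun _ _ => .nil _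
  | @cons u o v p k h ih =>
    intro hu hv
    have ho : o ∈ Set.Icc x z := ⟨hu.1.trans k.le, h.le.trans hv.2⟩
    obtain ⟨g1, g2⟩ := f2 ⟨u, hu⟩ ⟨o, ho⟩ k
    exact g2 ▸ ChainWord.cons g1 (ih ho hv)

theorem color_eq (h0 : rk ⊥ = 0) (h1 : ∀ x y : L, x ⋖ y → rk y = rk x + 1)
    (hc : ∀ s : {s : L // IsAtom s}, c ⊥ s.1 = s)
    (f1 : ∀ u : Set.Icc x z, rk (φ u) + rk x = rk u.1)
    (f2 : ∀ u v : Set.Icc x z, u.1 ⋖ v.1 → φ u ⋖ φ v ∧ c (φ u) (φ v) = c u.1 v.1)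
    (y : Set.Icc x z) (a : x ⋖ y.1) : (c x y.1).1 = φ y := by
  have hx : x ∈ Set.Icc x z := ⟨le_rfl, y.2.1.trans y.2.2⟩
  have b : φ ⟨x, hx⟩ = ⊥ := by
    have k2 := f1 ⟨x, hx⟩
    exact (eq_of_le_of_rk c h1 bot_le (by dsimp only at k2; omega)).symm
  obtain ⟨g1, g2⟩ := f2 ⟨x, hx⟩ y a
  rw [b] at g1 g2
  rw [← g2, hc ⟨_, bot_covBy_iff.1 g1⟩]

end Emb

theorem lcm_of_ok [Finite L] (H : Ok c rk) (x y : L) (m : PresentedMonoid (Rel c))
    (hx : ∃ w, m = I c ⊥ x * w) (hy : ∃ w, m = I c ⊥ y * w) : ∃ w, m = I c ⊥ (x ⊔ y) * w := by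
  obtain ⟨a, ha⟩ := hx
  obtain ⟨b, hb⟩ := hy
  obtain ⟨w, e, -⟩ := H.step (H.all _) _ le_rfl ⊥ x y a b bot_le bot_le (ha.symm.trans hb) le_rfl
  exact ⟨w, by rw [ha, e, ← mul_assoc, H.I_mul bot_le le_sup_left]⟩

theorem rk_join_le [Finite L] (h0 : rk ⊥ = 0) (h1 : ∀ x y : L, x ⋖ y → rk y = rk x + 1)
    (hc : ∀ s : {s : L // IsAtom s}, c ⊥ s.1 = s) (ι : L → PresentedMonoid (Rel c))
    (hι : ∀ x p, ChainWord c ⊥ x p → ι x = W c p)
    (hl : ∀ x y m, (∃ w, m = ι x * w) → (∃ w, m = ι y * w) → ∃ w, m = ι (x ⊔ y) * w)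
    {x y y' : L} (a : x ⋖ y) (a' : x ⋖ y') :
    rk (y ⊔ y') ≤ rk x + rk ((c x y).1 ⊔ (c x y').1) := by
  obtain ⟨p, hp⟩ := exists_chain c (bot_le : ⊥ ≤ x)
  obtain ⟨q, hq⟩ := exists_chain c (le_sup_left : (c x y).1 ≤ (c x y).1 ⊔ (c x y').1)
  obtain ⟨q', hq'⟩ := exists_chain c (le_sup_right : (c x y').1 ≤ (c x y).1 ⊔ (c x y').1)
  obtain ⟨o, ho⟩ := exists_chain c (bot_le : ⊥ ≤ y ⊔ y')
  have k1 := ChainWord.cons (c x y).2.bot_covBy hq
  have k2 := ChainWord.cons (c x y').2.bot_covBy hq'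
  rw [hc] at k1 k2
  have e : W c (c x y :: q) = W c (c x y' :: q') := (hι _ _ k1).symm.trans (hι _ _ k2)
  have e1 := hι _ _ (hp.append (.cons a (.nil y)))
  have e2 := hι _ _ (hp.append (.cons a' (.nil y')))
  obtain ⟨w, hw⟩ := hl y y' (W c (p ++ c x y :: q))
    ⟨W c q, by rw [e1, W_append, W_append, W_cons, mul_assoc]⟩
    ⟨W c q', by rw [e2, W_append, W_append, e, W_cons, mul_assoc]⟩
  rw [hι _ _ ho] at hw
  have l0 := len_le h1 hw
  have l1 := len_chain h1 hp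
  have l2 := len_chain h1 k1
  have l3 := len_chain h1 ho
  rw [List.length_append] at l0
  omega

end Pool.Agent.Lib.MP_4cc90a_co.H
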